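import Pool.Agent.H32.Dense.Iface

/-!
# From the entropy inequality to the counting inequality (module X6)
-/

set_option autoImplicit false

namespace Pool.Agent.H60.Dense

open Finset Real
open Pool.Agent.H49.Ent
open Pool.Agent.H32.Dense

section Setup

variable {N : ℕ} (A : Fin N → Finset ℤ)

/-- The pairs of a line and one of its times. -/
abbrev Om : Type := (i : Fin N) × {x : ℤ // x ∈ A i}

/-- The law: uniform line, then a uniform time. -/
noncomputable def pm (w : Om A) : ℝ := (N : ℝ)⁻¹ * ((A w.1).card : ℝ)⁻¹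

lemma sum_Om (f : Om A → ℝ) : ∑ w, f w = ∑ i, ∑ x : {x : ℤ // x ∈ A i}, f ⟨i, x⟩ := by
  rw [Fintype.sum_sigma]

lemma pm_nonneg (w : Om A) : 0 ≤ pm A w := by
  unfold pm; positivity

lemma sum_fib (i : Fin N) (g : ℤ → ℝ) :
    ∑ x : {x : ℤ // x ∈ A i}, g x = ∑ x ∈ A i, g x :=
  Finset.sum_coe_sort (A i) g

variable {A}

lemma pm_pos (hN : 0 < N) (hA : ∀ i, 0 < (A i).card) (w : Om A) : 0 < pm A w := by
  unfold pm
  have h1 : (0 : ℝ) < N := by exact_mod_cast hN
  have h2 : (0 : ℝ) < (A w.1).card := by exact_mod_cast hA w.1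
  positivity

lemma pm_sum (hN : 0 < N) (hA : ∀ i, 0 < (A i).card) : ∑ w, pm A w = 1 := by
  rw [sum_Om]
  have h1 : (0 : ℝ) < N := by exact_mod_cast hN
  have : ∀ i : Fin N, ∑ x : {x : ℤ // x ∈ A i}, pm A ⟨i, x⟩ = (N : ℝ)⁻¹ := by
    intro i
    have h2 : (0 : ℝ) < (A i).card := by exact_mod_cast hA i
    simp only [pm, Finset.sum_const, Finset.card_univ, Fintype.card_coe, nsmul_eq_mul]
    field_simp
  rw [Finset.sum_congr rfl fun i _ => this i]
  simp only [Finset.sum_const, Finset.card_univ, Fintype.card_fin, nsmul_eq_mul]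
  field_simp

/-- The law of a variable which determines and is determined by the line. -/
lemma law_line (hN : 0 < N) (hA : ∀ i, 0 < (A i).card) {T : Type*} (f : Fin N → T)
    (hf : Function.Injective f) (i : Fin N) :
    law (pm A) (fun w => f w.1) (f i) = (N : ℝ)⁻¹ := by
  classical
  unfold law
  rw [sum_Om, Finset.sum_eq_single i]
  · simp only [if_true]
    have h1 : (0 : ℝ) < N := by exact_mod_cast hN
    have h2 : (0 : ℝ) < (A i).card := by exact_mod_cast hA i
    simp only [pm, Finset.sum_const, Finset.card_univ, Fintype.card_coe, nsmul_eq_mul]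
    field_simp
  · intro j _ hj
    have : f j ≠ f i := fun h => hj (hf h)
    simp only [this, if_false, Finset.sum_const_zero]
  · intro h; exact absurd (Finset.mem_univ _) h

/-- The law of a variable which determines everything. -/
lemma law_all {T : Type*} (f : Om A → T) (hf : Function.Injective f) (w : Om A) :
    law (pm A) f (f w) = pm A w := by
  classical
  unfold law
  rw [Finset.sum_eq_single w]
  · simp
  · intro j _ hj
    rw [if_neg fun h => hj (hf h)]
  · intro h; exact absurd (Finset.mem_univ _) h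

lemma law_unit (hN : 0 < N) (hA : ∀ i, 0 < (A i).card) (s : Unit) :
    law (pm A) (fun _ => (() : Unit)) s = 1 := by
  classical
  unfold law
  simp only [if_true]
  exact pm_sum hN hA

end Setup

/-- Module X6. -/
theorem dense_of_AKG {d : ℕ} {a lam B₀ B₁ : ℝ} (ha : 1 ≤ a) (hl : 0 ≤ lam) (hB : 0 ≤ B₁)
    (h : AKG d a lam B₀ B₁) : DenseBound d a lam := by
  classical
  intro G₀
  refine ⟨Real.exp (B₀ + B₁ * G₀), Real.exp_pos _, ?_⟩
  intro M N u v A κ R hM hκ hv hvM hA hκA hG hR
  have hM' : (0 : ℝ) < M := by exact_mod_cast hM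
  have hcard : ∀ i, 0 < (A i).card := by
    intro i
    have h1 : 0 < κ * M := by positivity
    have h2 := h1.trans_le (hκA i)
    exact_mod_cast h2
  have hR0 : 0 ≤ R := (Nat.cast_nonneg _).trans (hR 0)
  rcases Nat.eq_zero_or_pos N with hN | hN
  · subst hN
    simp only [Nat.cast_zero]
    positivity
  have hN' : (0 : ℝ) < N := by exact_mod_cast hN
  -- `R` is at least one
  have hR1 : 1 ≤ R := by
    obtain ⟨x, hx⟩ := Finset.card_pos.mp (hcard ⟨0, hN⟩)
    refine le_trans ?_ (hR x)
    have : 0 < ((univ.filter fun i => x ∈ A i).image fun i => rd (pos M (u i) (v i) x)).card :=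
      Finset.card_pos.mpr ⟨_, Finset.mem_image_of_mem _ (Finset.mem_filter.mpr
        ⟨Finset.mem_univ (⟨0, hN⟩ : Fin N), hx⟩)⟩
    exact_mod_cast this
  set p := pm A with hp
  set Z : Om A → Unit := fun _ => () with hZ
  set V : Om A → Fin d → ℤ := fun w => v w.1 with hV
  set U : Om A → Fin d → ℝ := fun w => u w.1 with hU
  set τ : Om A → ℤ := fun w => w.2.1 with hτ
  have hp0 : ∀ w, 0 ≤ p w := pm_nonneg A
  have hpp : ∀ w, 0 < p w := pm_pos hN hcard
  have hp1 : ∑ w, p w = 1 := pm_sum hN hcard
  have hfam : IsFam M p Z V U τ := by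
    refine ⟨hM, hp0, hp1, fun w _ k => hvM w.1 k, ?_, ?_⟩
    · intro w w' _ _ hww
      have : w.1 = w'.1 := hv (Prod.ext_iff.mp hww).1
      simp only [hU, this]
    · intro w _
      have := Finset.mem_Ico.mp (hA w.1 w.2.2)
      exact ⟨this.1, this.2⟩
  have hmain := h M (Om A) Unit p Z V U τ hfam
  -- the variable `b`
  have hbinj : Function.Injective (fun i : Fin N => (v i, ())) := fun i j hij =>
    hv (Prod.ext_iff.mp hij).1
  have hlawb : ∀ i, law p (fun w => (V w, Z w)) (v i, ()) = (N : ℝ)⁻¹ :=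
    fun i => law_line hN hcard (fun i : Fin N => (v i, ())) hbinj i
  -- entropy of the line
  have hCH : CH p V Z = Real.log N := by
    rw [CH_eq_neg_sum hp0]
    have : ∀ w : Om A, -Real.log (law p (fun ω => (V ω, Z ω)) (V w, Z w) / law p Z (Z w)) =
        Real.log N := by
      intro w
      rw [show (V w, Z w) = (v w.1, ()) from rfl, hlawb, show law p Z (Z w) = 1 from
        law_unit hN hcard _, div_one, Real.log_inv, neg_neg]
    simp_rw [this]
    exact Ex_const hp1 _
  -- the slices
  have hS : Sf M p Z V U τ ≤ Real.log R := by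
    unfold Sf
    refine (CH_le_card hp0 hp1 _ _ (fun z : Unit × ℤ =>
      (univ.filter fun i => z.2 ∈ A i).image fun i => rd (pos M (u i) (v i) z.2)) ?_).trans ?_
    · intro w _
      exact Finset.mem_image_of_mem _ (Finset.mem_filter.mpr ⟨Finset.mem_univ _, w.2.2⟩)
    · rw [← Ex_const hp1 (Real.log R)]
      refine Ex_mono hp0 fun w _ => ?_
      refine Real.log_le_log ?_ (hR (τ w))
      have : 0 < ((univ.filter fun i => τ w ∈ A i).image
          fun i => rd (pos M (u i) (v i) (τ w))).card :=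
        Finset.card_pos.mpr ⟨_, Finset.mem_image_of_mem _ (Finset.mem_filter.mpr
          ⟨Finset.mem_univ w.1, w.2.2⟩)⟩
      exact_mod_cast this
  -- the times
  have hK : Kf M p (fun w => (V w, Z w)) τ ≤ -Real.log κ := by
    unfold Kf
    have h1 : CH p τ (fun w => (V w, Z w)) = Ex p (fun w => Real.log ((A w.1).card)) := by
      rw [CH_eq_neg_sum hp0]
      unfold Ex
      refine Finset.sum_congr rfl fun w _ => ?_
      congr 1
      have e1 : law p (fun ω => (τ ω, (V ω, Z ω))) (τ w, (V w, Z w)) = p w :=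
        law_all (fun ω : Om A => (τ ω, (V ω, Z ω))) (by
          rintro ⟨i, x⟩ ⟨j, y⟩ hij
          simp only [hτ, hV, Prod.mk.injEq] at hij
          obtain ⟨h1, h2, -⟩ := hij
          have h3 : i = j := hv h2
          subst h3
          have h4 : x = y := Subtype.ext h1
          rw [h4]) w
      dsimp only
      rw [e1, show (V w, Z w) = (v w.1, ()) from rfl, hlawb]
      have e2 : p w / (N : ℝ)⁻¹ = ((A w.1).card : ℝ)⁻¹ := by
        simp only [hp, pm]
        field_simp
      rw [e2, Real.log_inv, neg_neg]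
    rw [h1, ← Ex_const hp1 (Real.log M), ← Ex_sub, ← Ex_const hp1 (-Real.log κ)]
    refine Ex_mono hp0 fun w _ => ?_
    have h2 := Real.log_le_log (by positivity) (hκA w.1)
    rw [Real.log_mul hκ.ne' hM'.ne'] at h2
    linarith
  -- the energy
  have hGf : Gf M p (fun w => (V w, Z w)) τ ≤ G₀ := by
    unfold Gf dbl Ex
    rw [Fintype.sum_prod_type]
    have h1 : ∀ w : Om A, ∑ w' : Om A, glue p p (fun w => (V w, Z w)) (fun w => (V w, Z w))
        (w, w') * ell M (τ (w, w').1) (τ (w, w').2) ≤ p w * G₀ := by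
      intro w
      rw [sum_Om, Finset.sum_eq_single w.1]
      · have h2 : ∀ x : {x : ℤ // x ∈ A w.1},
            glue p p (fun w => (V w, Z w)) (fun w => (V w, Z w)) (w, ⟨w.1, x⟩) *
              ell M (τ (w, (⟨w.1, x⟩ : Om A)).1) (τ (w, (⟨w.1, x⟩ : Om A)).2) =
            p w * ((A w.1).card : ℝ)⁻¹ * ell M (τ w) x := by
          intro x
          unfold glue
          rw [if_pos rfl]
          dsimp only
          rw [show (V w, Z w) = (v w.1, ()) from rfl, hlawb]
          have : p (⟨w.1, x⟩ : Om A) = (N : ℝ)⁻¹ * ((A w.1).card : ℝ)⁻¹ := rfl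
          rw [this]
          have hc : (0 : ℝ) < (A w.1).card := by exact_mod_cast hcard w.1
          field_simp
          rfl
        rw [Finset.sum_congr rfl fun x _ => h2 x, ← Finset.mul_sum,
          sum_fib A w.1 (fun x => ell M (τ w) x)]
        have h3 := hG w.1 (τ w) w.2.2
        have hc : (0 : ℝ) < (A w.1).card := by exact_mod_cast hcard w.1
        have h4 : ((A w.1).card : ℝ)⁻¹ * ∑ x ∈ A w.1, ell M (τ w) x ≤ G₀ := by
          rw [inv_mul_le_iff₀ hc]
          linarith
        have := mul_le_mul_of_nonneg_left h4 (hp0 w)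
        calc p w * ((A w.1).card : ℝ)⁻¹ * ∑ x ∈ A w.1, ell M (τ w) x
            = p w * (((A w.1).card : ℝ)⁻¹ * ∑ x ∈ A w.1, ell M (τ w) x) := by ring
          _ ≤ p w * G₀ := this
      · intro j _ hj
        refine Finset.sum_eq_zero fun x _ => ?_
        unfold glue
        rw [if_neg, zero_mul]
        intro hh
        exact hj (hv (Prod.ext_iff.mp hh).1).symm
      · intro hh; exact absurd (Finset.mem_univ _) hh
    refine (Finset.sum_le_sum fun w _ => h1 w).trans ?_
    rw [← Finset.sum_mul, hp1, one_mul]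
  -- conclusion
  rw [hCH] at hmain
  have hlogN : Real.log N ≤ a * Real.log R + lam * (-Real.log κ) + B₀ + B₁ * G₀ := by
    have h1 : a * Sf M p Z V U τ ≤ a * Real.log R := mul_le_mul_of_nonneg_left hS (by linarith)
    have h2 : lam * Kf M p (fun w => (V w, Z w)) τ ≤ lam * (-Real.log κ) :=
      mul_le_mul_of_nonneg_left hK hl
    have h3 : B₁ * Gf M p (fun w => (V w, Z w)) τ ≤ B₁ * G₀ := mul_le_mul_of_nonneg_left hGf hB
    linarith
  have hR' : 0 < R := by linarith
  have h5 : Real.exp (B₀ + B₁ * G₀) * κ ^ (-lam) * R ^ a =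
      Real.exp (a * Real.log R + lam * (-Real.log κ) + B₀ + B₁ * G₀) := by
    rw [Real.rpow_def_of_pos hκ, Real.rpow_def_of_pos hR', ← Real.exp_add, ← Real.exp_add]
    congr 1
    ring
  rw [h5, ← Real.log_le_iff_le_exp hN']
  exact hlogN

end Pool.Agent.H60.Dense
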